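import Pool.Agent.Phi44.Small
import Pool.Agent.Phi44.D1
import Pool.Agent.Phi44.D2
import Pool.Agent.Phi44.D3
import Pool.Agent.Phi44.D4
import Pool.Agent.Phi44.D5
import Pool.Agent.Phi44.D6
import Pool.Agent.Phi44.D7
import Pool.Agent.Phi44.D8
import Pool.Agent.Phi44.D9
import Pool.Agent.Phi44.D10
import Pool.Agent.Phi44.D11
import Pool.Agent.Phi44.D12

namespace Pool.Agent.Phi44

open Nat

/-- the primes in [53, 131072), as decoded from the tables -/
def LL : List ℕ :=
    decs c1 53 ++
    (decs c2 8288 ++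
    (decs c3 17988 ++
    (decs c4 28352 ++
    (decs c5 39044 ++
    (decs c6 50024 ++
    (decs c7 61154 ++
    (decs c8 72648 ++
    (decs c9 84192 ++
    (decs c10 95784 ++
    (decs c11 107774 ++
    (decs c12 119772 ++
    dec 12 130928 eL)))))))))))

theorem seg_all : Seg 53 131072 LL :=
  s1.append <|
  s2.append <|
  s3.append <|
  s4.append <|
  s5.append <|
  s6.append <|
  s7.append <|
  s8.append <|
  s9.append <|
  s10.append <|
  s11.append <|
  s12.append <| sL

def P15 : List ℕ := [2, 3, 5, 7, 11, 13, 17, 19, 23, 29, 31, 37, 41, 43, 47]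

lemma prodL_LL : prodL LL =
    (prodsL c1 53 * (prodsL c2 8288 * (prodsL c3 17988 * (prodsL c4 28352 * (prodsL c5 39044 * (prodsL c6 50024 * (prodsL c7 61154 * (prodsL c8 72648 * (prodsL c9 84192 * (prodsL c10 95784 * (prodsL c11 107774 * (prodsL c12 119772 * prodL (dec 12 130928 eL))))))))))))) := by
  unfold LL
  simp only [prodL_append, prodsL_eq]

lemma prodM_LL : prodM LL =
    (prodsM c1 53 * (prodsM c2 8288 * (prodsM c3 17988 * (prodsM c4 28352 * (prodsM c5 39044 * (prodsM c6 50024 * (prodsM c7 61154 * (prodsM c8 72648 * (prodsM c9 84192 * (prodsM c10 95784 * (prodsM c11 107774 * (prodsM c12 119772 * prodM (dec 12 130928 eL))))))))))))) := by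
  unfold LL
  simp only [prodM_append, prodsM_eq]

theorem numeric : 83 * prodM (P15 ++ LL) ≤ 4 * prodL (P15 ++ LL) := by
  rw [prodM_append, prodL_append, prodM_LL, prodL_LL]
  have h : Nat.ble (83 * (prodM P15 *
    (prodsM c1 53 * (prodsM c2 8288 * (prodsM c3 17988 * (prodsM c4 28352 * (prodsM c5 39044 * (prodsM c6 50024 * (prodsM c7 61154 * (prodsM c8 72648 * (prodsM c9 84192 * (prodsM c10 95784 * (prodsM c11 107774 * (prodsM c12 119772 * prodM (dec 12 130928 eL)))))))))))))))
    (4 * (prodL P15 *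
    (prodsL c1 53 * (prodsL c2 8288 * (prodsL c3 17988 * (prodsL c4 28352 * (prodsL c5 39044 * (prodsL c6 50024 * (prodsL c7 61154 * (prodsL c8 72648 * (prodsL c9 84192 * (prodsL c10 95784 * (prodsL c11 107774 * (prodsL c12 119772 * prodL (dec 12 130928 eL))))))))))))))) = true := by decide +kernel
  exact Nat.le_of_ble_eq_true h

end Pool.Agent.Phi44
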