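import Mathlib

namespace Pool.Agent.Phi44

open Nat

/-- n = k + l with 0 < k < n/2 and φ(k)φ(n-k) a square, i.e. a(n) > 0. -/
def Good (n : ℕ) : Prop :=
  ∃ k, 0 < k ∧ 2 * k < n ∧ IsSquare (Nat.totient k * Nat.totient (n - k))

lemma good_of_pair {n k l : ℕ} (hk : 0 < k) (hl : 0 < l) (hne : k ≠ l) (hn : k + l = n)
    (hs : IsSquare (Nat.totient k * Nat.totient l)) : Good n := by
  rcases lt_or_gt_of_ne hne with h | h
  · refine ⟨k, hk, by omega, ?_⟩
    have : n - k = l := by omega
    rw [this]; exact hs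
  · refine ⟨l, hl, by omega, ?_⟩
    have : n - l = k := by omega
    rw [this, mul_comm]; exact hs

/-- primes below 367 -/
def P72 : List ℕ := [2, 3, 5, 7, 11, 13, 17, 19, 23, 29, 31, 37, 41, 43, 47, 53, 59, 61, 67, 71, 73, 79, 83, 89, 97, 101, 103, 107, 109, 113, 127, 131, 137, 139, 149, 151, 157, 163, 167, 173, 179, 181, 191, 193, 197, 199, 211, 223, 227, 229, 233, 239, 241, 251, 257, 263, 269, 271, 277, 281, 283, 293, 307, 311, 313, 317, 331, 337, 347, 349, 353, 359]

/-- factorization by trial division (contains 0 when out of fuel or range) -/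
def fac : ℕ → List ℕ → ℕ → List ℕ
  | 0, _, _ => [0]
  | _ + 1, [], n => cond (Nat.ble n 1) [] (cond (Nat.ble n 134688) [n] [0])
  | f + 1, p :: t, n =>
    cond (Nat.ble (p * p) n)
      (cond (Nat.beq (n % p) 0) (p :: fac f (p :: t) (n / p)) (fac f t n))
      (cond (Nat.ble n 1) [] [n])

def mem (p : ℕ) : List ℕ → Bool
  | [] => false
  | q :: t => cond (Nat.beq p q) true (mem p t)

def go : List ℕ → List ℕ → ℕ
  | _, [] => 1
  | D, p :: t => (cond (mem p D) p (p - 1)) * go (p :: D) t

lemma mem_iff (p : ℕ) : ∀ D : List ℕ, mem p D = true ↔ p ∈ D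
  | [] => by simp [mem]
  | q :: t => by
    unfold mem
    by_cases h : p = q
    · subst h; simp
    · have : Nat.beq p q = false := by
        rw [Bool.eq_false_iff]; intro h2; exact h (Nat.eq_of_beq_eq_true h2)
      rw [this]; simp only [cond_false, List.mem_cons, h, false_or]; exact mem_iff p t

lemma go_spec : ∀ (l D : List ℕ) (M : ℕ), 0 < M → (∀ p ∈ l, p.Prime) →
    (∀ p ∈ l, (p ∈ D ↔ p ∣ M)) → φ (M * l.prod) = φ M * go D l
  | [], D, M, _, _, _ => by simp [go]
  | p :: t, D, M, hM, hp, hD => by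
    have pp : p.Prime := hp p (by simp)
    have h1 : φ (M * p) = φ M * (cond (mem p D) p (p - 1)) := by
      by_cases h : p ∈ D
      · have hd := (hD p (by simp)).1 h
        rw [(mem_iff p D).2 h, cond_true, mul_comm M p, Nat.totient_mul_of_prime_of_dvd pp hd,
          mul_comm]
      · have hd : ¬ p ∣ M := fun h2 => h ((hD p (by simp)).2 h2)
        have : mem p D = false := by
          rw [Bool.eq_false_iff]; intro h2; exact h ((mem_iff p D).1 h2)
        rw [this, cond_false, mul_comm M p, Nat.totient_mul_of_prime_of_not_dvd pp hd, mul_comm]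
    have h2 := go_spec t (p :: D) (M * p) (Nat.mul_pos hM pp.pos) (fun r hr => hp r (by simp [hr]))
      (by
        intro r hr
        have pr : r.Prime := hp r (by simp [hr])
        rw [List.mem_cons, pr.dvd_mul, ← hD r (by simp [hr]), Nat.prime_dvd_prime_iff_eq pr pp]
        tauto)
    rw [List.prod_cons, ← mul_assoc, h2, h1]
    show _ = φ M * ((cond (mem p D) p (p - 1)) * go (p :: D) t)
    ring

lemma go_zero : ∀ (l D : List ℕ), 0 ∈ l → go D l = 0
  | [], D, h => by simp at h
  | p :: t, D, h => by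
    show (cond (mem p D) p (p - 1)) * go (p :: D) t = 0
    rcases List.mem_cons.1 h with h | h
    · subst h; cases mem 0 D <;> simp
    · rw [go_zero t _ h, mul_zero]

lemma prime_of_no_small {n p : ℕ} (hn : 1 < n) (hlt : n < p * p)
    (hr : ∀ r, r.Prime → r ∣ n → p ≤ r) : n.Prime := by
  by_contra hnp
  have h6 := Nat.minFac_sq_le_self (by omega) hnp
  have h7 := hr n.minFac (Nat.minFac_prime (by omega)) (Nat.minFac_dvd n)
  have h8 : p * p ≤ n := by
    calc p * p ≤ n.minFac * n.minFac := Nat.mul_le_mul h7 h7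
      _ = n.minFac ^ 2 := by ring
      _ ≤ n := h6
  omega

/-- invariant of the trial division: prime factors are in the list or large -/
def Inv (ps : List ℕ) (n : ℕ) : Prop :=
  ps.Pairwise (· < ·) ∧ (∀ p ∈ ps, 2 ≤ p ∧ p < 367) ∧ ∀ r, r.Prime → r ∣ n → r ∈ ps ∨ 367 ≤ r

lemma Inv.ge {p n : ℕ} {t : List ℕ} (h : Inv (p :: t) n) : ∀ r, r.Prime → r ∣ n → p ≤ r := by
  intro r pr hd
  obtain ⟨h1, h2, h3⟩ := h
  rcases h3 r pr hd with h4 | h4
  · rcases List.mem_cons.1 h4 with h5 | h5
    · omega
    · exact (List.rel_of_pairwise_cons h1 h5).le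
  · have := (h2 p (by simp)).2; omega

lemma Inv.prime {p n : ℕ} {t : List ℕ} (h : Inv (p :: t) n) (hd : p ∣ n) : p.Prime := by
  have h2 := (h.2.1 p (by simp)).1
  have h3 := h.ge p.minFac (Nat.minFac_prime (by omega)) ((Nat.minFac_dvd p).trans hd)
  have h4 := Nat.minFac_le (n := p) (by omega)
  have : p.minFac = p := le_antisymm h4 h3
  rw [← this]; exact Nat.minFac_prime (by omega)

lemma Inv.tail {p n : ℕ} {t : List ℕ} (h : Inv (p :: t) n) (hd : ¬ p ∣ n) : Inv t n := by
  obtain ⟨h1, h2, h3⟩ := h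
  refine ⟨(List.pairwise_cons.1 h1).2, fun q hq => h2 q (by simp [hq]), ?_⟩
  intro r pr hr
  rcases h3 r pr hr with h4 | h4
  · rcases List.mem_cons.1 h4 with h5 | h5
    · subst h5; exact absurd hr hd
    · exact Or.inl h5
  · exact Or.inr h4

lemma fac_spec : ∀ (f : ℕ) (ps : List ℕ) (n : ℕ), 0 < n → Inv ps n →
    0 ∈ fac f ps n ∨ ((fac f ps n).prod = n ∧ ∀ r ∈ fac f ps n, r.Prime)
  | 0, ps, n, _, _ => by left; simp [fac]
  | f + 1, [], n, hn, hI => by
    unfold fac
    by_cases h2 : n ≤ 1
    · rw [Nat.ble_eq_true_of_le h2, cond_true]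
      right; refine ⟨?_, by simp⟩
      simp; omega
    · have h3 : Nat.ble n 1 = false := by
        rw [Bool.eq_false_iff]; intro h5; exact h2 (Nat.le_of_ble_eq_true h5)
      rw [h3, cond_false]
      by_cases h4 : n ≤ 134688
      · rw [Nat.ble_eq_true_of_le h4, cond_true]
        right
        have pn : n.Prime := prime_of_no_small (p := 367) (by omega) (by omega) (by
          intro r pr hr
          rcases hI.2.2 r pr hr with h5 | h5
          · simp at h5
          · exact h5)
        simpa using pn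
      · have h5 : Nat.ble n 134688 = false := by
          rw [Bool.eq_false_iff]; intro h5; exact h4 (Nat.le_of_ble_eq_true h5)
        rw [h5, cond_false]
        left; simp
  | f + 1, p :: t, n, hn, hI => by
    unfold fac
    have hp := (hI.2.1 p (by simp)).1
    by_cases h : p * p ≤ n
    · rw [Nat.ble_eq_true_of_le h, cond_true]
      by_cases h2 : n % p = 0
      · rw [h2, show Nat.beq 0 0 = true from rfl, cond_true]
        have hd : p ∣ n := Nat.dvd_of_mod_eq_zero h2
        have pp : p.Prime := hI.prime hd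
        have hq : 0 < n / p := Nat.div_pos (Nat.le_of_dvd hn hd) (by omega)
        have ih := fac_spec f (p :: t) (n / p) hq
          ⟨hI.1, hI.2.1, fun r pr hrd => hI.2.2 r pr (hrd.trans (Nat.div_dvd_of_dvd hd))⟩
        rcases ih with ih | ⟨ih1, ih2⟩
        · left; simp [ih]
        · right
          refine ⟨by rw [List.prod_cons, ih1, Nat.mul_div_cancel' hd], ?_⟩
          intro r hrm
          rcases List.mem_cons.1 hrm with h5 | h5
          · rw [h5]; exact pp
          · exact ih2 r h5
      · have : Nat.beq (n % p) 0 = false := by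
          rw [Bool.eq_false_iff]; intro h5; exact h2 (Nat.eq_of_beq_eq_true h5)
        rw [this, cond_false]
        exact fac_spec f t n hn (hI.tail (fun hd => h2 (Nat.mod_eq_zero_of_dvd hd)))
    · have h1 : Nat.ble (p * p) n = false := by
        rw [Bool.eq_false_iff]; intro h5; exact h (Nat.le_of_ble_eq_true h5)
      rw [h1, cond_false]
      by_cases h2 : n ≤ 1
      · rw [Nat.ble_eq_true_of_le h2, cond_true]
        right; refine ⟨?_, by simp⟩
        simp; omega
      · have h3 : Nat.ble n 1 = false := by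
          rw [Bool.eq_false_iff]; intro h5; exact h2 (Nat.le_of_ble_eq_true h5)
        rw [h3, cond_false]
        right
        have pn : n.Prime := prime_of_no_small (p := p) (by omega) (by omega) hI.ge
        simpa using pn

/-- composite by naive trial division -/
def comp0 : ℕ → ℕ → ℕ → Bool
  | 0, _, _ => false
  | f + 1, p, n => cond (Nat.beq (n % p) 0) (Nat.blt p n) (comp0 f (p + 1) n)

lemma comp0_spec : ∀ (f p n : ℕ), 2 ≤ p → comp0 f p n = true → ¬ n.Prime
  | 0, p, n, _, h => by simp [comp0] at h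
  | f + 1, p, n, hp, h => by
    unfold comp0 at h
    by_cases h2 : n % p = 0
    · rw [h2, show Nat.beq 0 0 = true from rfl, cond_true, Nat.blt_eq] at h
      intro hn
      have := (Nat.dvd_prime hn).1 (Nat.dvd_of_mod_eq_zero h2)
      omega
    · have : Nat.beq (n % p) 0 = false := by
        rw [Bool.eq_false_iff]; intro h5; exact h2 (Nat.eq_of_beq_eq_true h5)
      rw [this, cond_false] at h
      exact comp0_spec f (p + 1) n (by omega) h

def small : ℕ → Bool
  | 0 => true
  | n + 1 => (Nat.blt n 2 || (mem n P72 || comp0 20 2 n)) && small n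

lemma small_spec : ∀ N, small N = true → ∀ r, r.Prime → r < N → r ∈ P72
  | 0, _, r, _, h => by omega
  | n + 1, h, r, pr, hr => by
    unfold small at h
    rw [Bool.and_eq_true, Bool.or_eq_true, Bool.or_eq_true] at h
    rcases Nat.lt_or_ge r n with h1 | h1
    · exact small_spec n h.2 r pr h1
    · have : r = n := by omega
      subst this
      rcases h.1 with h2 | h2 | h2
      · rw [Nat.blt_eq] at h2; have := pr.two_le; omega
      · exact (mem_iff _ _).1 h2
      · exact absurd pr (comp0_spec _ _ _ le_rfl h2)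

lemma small367 : small 367 = true := by decide +kernel

def chain : ℕ → List ℕ → Bool
  | _, [] => true
  | n, p :: t => (Nat.blt n p && Nat.blt p 367) && chain p t

lemma chain_spec : ∀ (n : ℕ) (l : List ℕ), chain n l = true →
    l.Pairwise (· < ·) ∧ (∀ p ∈ l, n < p ∧ p < 367)
  | n, [], _ => by simp
  | n, p :: t, h => by
    unfold chain at h
    rw [Bool.and_eq_true, Bool.and_eq_true, Nat.blt_eq, Nat.blt_eq] at h
    obtain ⟨h1, h2⟩ := chain_spec p t h.2
    refine ⟨List.pairwise_cons.2 ⟨fun a ha => (h2 a ha).1, h1⟩, ?_⟩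
    intro q hq
    rcases List.mem_cons.1 hq with h3 | h3
    · rw [h3]; exact h.1
    · have := h2 q h3; omega

lemma inv_P72 (n : ℕ) : Inv P72 n := by
  obtain ⟨h1, h2⟩ := chain_spec 1 P72 (by decide +kernel)
  refine ⟨h1, fun p hp => h2 p hp, fun r pr _ => ?_⟩
  rcases Nat.lt_or_ge r 367 with h | h
  · exact Or.inl (small_spec _ small367 r pr h)
  · exact Or.inr h

/-- certificate for one status -/
def OKst (q : ℕ) (D : List ℕ) : Prop :=
  ∃ a s f, 0 < a ∧ a < q ∧ 2 * a ≠ q ∧ 0 < s ∧ go D (fac f P72 a) * go D (fac f P72 (q - a)) = s * s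

lemma good_of_OKst {q : ℕ} {D : List ℕ} (h : OKst q D) {M : ℕ} (hM : 0 < M)
    (hD : ∀ r, r.Prime → r < q → (r ∈ D ↔ r ∣ M)) : Good (M * q) := by
  obtain ⟨a, s, f, ha, haq, h2a, hs, heq⟩ := h
  have hb : 0 < q - a := by omega
  have key : ∀ x, 0 < x → x < q → go D (fac f P72 x) ≠ 0 → φ (M * x) = φ M * go D (fac f P72 x) := by
    intro x hx hxq h0
    rcases fac_spec f P72 x hx (inv_P72 x) with h1 | ⟨h1, h2⟩
    · exact absurd (go_zero _ D h1) h0
    · have h3 := go_spec (fac f P72 x) D M hM h2 (by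
        intro p hp
        have pp := h2 p hp
        have hd : p ∣ x := by rw [← h1]; exact List.dvd_prod hp
        exact hD p pp (lt_of_le_of_lt (Nat.le_of_dvd hx hd) hxq))
      rw [h1] at h3; exact h3
  have hne : go D (fac f P72 a) * go D (fac f P72 (q - a)) ≠ 0 := by
    rw [heq]; exact (Nat.mul_pos hs hs).ne'
  have h1 := key a ha haq (left_ne_zero_of_mul hne)
  have h2 := key (q - a) hb (by omega) (right_ne_zero_of_mul hne)
  refine good_of_pair (k := M * a) (l := M * (q - a)) (Nat.mul_pos hM ha) (Nat.mul_pos hM hb) ?_ ?_ ?_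
  · intro h; have := Nat.eq_of_mul_eq_mul_left hM h; omega
  · rw [← Nat.mul_add]; congr 1; omega
  · rw [h1, h2]
    refine ⟨φ M * s, ?_⟩
    calc φ M * go D (fac f P72 a) * (φ M * go D (fac f P72 (q - a)))
        = φ M * φ M * (go D (fac f P72 a) * go D (fac f P72 (q - a))) := by ring
      _ = φ M * s * (φ M * s) := by rw [heq]; ring

/-- all four statuses of 2 and 5 -/
def OK (q : ℕ) : Prop := OKst q [] ∧ OKst q [2] ∧ OKst q [5] ∧ OKst q [2, 5]

def chk (q a s : ℕ) (D : List ℕ) : Bool :=
  (Nat.blt 0 a && Nat.blt a q && !(Nat.beq (2 * a) q) && Nat.blt 0 s) &&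
    Nat.beq (go D (fac 100 P72 a) * go D (fac 100 P72 (q - a))) (s * s)

lemma chk_spec {q a s : ℕ} {D : List ℕ} (h : chk q a s D = true) : OKst q D := by
  unfold chk at h
  simp only [Bool.and_eq_true, Bool.not_eq_true', Nat.blt_eq] at h
  obtain ⟨⟨⟨⟨h1, h2⟩, h3⟩, h4⟩, h5⟩ := h
  refine ⟨a, s, 100, h1, h2, ?_, h4, Nat.eq_of_beq_eq_true h5⟩
  intro h6
  rw [h6] at h3
  simp at h3

/-- composite by trial division -/
def comp : List ℕ → ℕ → Bool
  | [], _ => false
  | p :: t, n => cond (Nat.beq (n % p) 0) (Nat.blt p n) (comp t n)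

lemma comp_spec : ∀ (l : List ℕ) (n : ℕ), (∀ p ∈ l, 2 ≤ p) → comp l n = true → ¬ n.Prime
  | [], n, _, h => by simp [comp] at h
  | p :: t, n, hl, h => by
    unfold comp at h
    have hp := hl p (by simp)
    by_cases h2 : n % p = 0
    · rw [h2, show Nat.beq 0 0 = true from rfl, cond_true, Nat.blt_eq] at h
      intro hn
      have := (Nat.dvd_prime hn).1 (Nat.dvd_of_mod_eq_zero h2)
      omega
    · have : Nat.beq (n % p) 0 = false := by
        rw [Bool.eq_false_iff]; intro h5; exact h2 (Nat.eq_of_beq_eq_true h5)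
      rw [this, cond_false] at h
      exact comp_spec t n (fun q hq => hl q (by simp [hq])) h

def skip : ℕ → ℕ → Bool
  | 0, _ => true
  | g + 1, n => comp P72 n && skip g (n + 1)

lemma skip_spec : ∀ (g n : ℕ), skip g n = true → ∀ q, n ≤ q → q < n + g → ¬ q.Prime
  | 0, n, _, q, h1, h2 => by omega
  | g + 1, n, h, q, h1, h2 => by
    unfold skip at h
    rw [Bool.and_eq_true] at h
    rcases Nat.lt_or_ge n q with h3 | h3
    · exact skip_spec g (n + 1) h.2 q h3 (by omega)
    · have : q = n := le_antisymm h3 h1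
      rw [this]; exact comp_spec P72 n (fun p hp => ((inv_P72 0).2.1 p hp).1) h.1

/-- primality by trial division -/
def pr : List ℕ → ℕ → Bool
  | [], n => Nat.ble n 134688
  | p :: t, n => cond (Nat.ble (p * p) n) (cond (Nat.beq (n % p) 0) false (pr t n)) true

lemma pr_spec : ∀ (ps : List ℕ) (n : ℕ), 2 ≤ n → Inv ps n → pr ps n = true → n.Prime
  | [], n, hn, hI, h => by
    have h4 : n ≤ 134688 := Nat.le_of_ble_eq_true h
    exact prime_of_no_small (p := 367) (by omega) (by omega) (by
      intro r pr hr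
      rcases hI.2.2 r pr hr with h5 | h5
      · simp at h5
      · exact h5)
  | p :: t, n, hn, hI, h => by
    unfold pr at h
    by_cases h1 : p * p ≤ n
    · rw [Nat.ble_eq_true_of_le h1, cond_true] at h
      by_cases h2 : n % p = 0
      · rw [h2, show Nat.beq 0 0 = true from rfl, cond_true] at h
        exact absurd h (by simp)
      · have : Nat.beq (n % p) 0 = false := by
          rw [Bool.eq_false_iff]; intro h5; exact h2 (Nat.eq_of_beq_eq_true h5)
        rw [this, cond_false] at h
        exact pr_spec t n hn (hI.tail (fun hd => h2 (Nat.mod_eq_zero_of_dvd hd))) h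
    · exact prime_of_no_small (p := p) (by omega) (by omega) hI.ge

/-- one table entry: N = a0 + 2^14 (s0 + 2^16 (a1 + ...)) -/
def ent (q N : ℕ) : Bool :=
  chk q (N % 16384) (N / 16384 % 65536) [] &&
  (chk q (N / 1073741824 % 16384) (N / 17592186044416 % 65536) [2] &&
  (chk q (N / 1152921504606846976 % 16384) (N / 18889465931478580854784 % 65536) [5] &&
   chk q (N / 1237940039285380274899124224 % 16384) (N / 20282409603651670423947251286016 % 65536) [2, 5]))

lemma ent_spec {q N : ℕ} (h : ent q N = true) : OK q := by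
  unfold ent at h
  rw [Bool.and_eq_true, Bool.and_eq_true, Bool.and_eq_true] at h
  exact ⟨chk_spec h.1, chk_spec h.2.1, chk_spec h.2.2.1, chk_spec h.2.2.2⟩

/-- run k entries from n; returns the next number, or 0 on failure -/
def run : ℕ → ℕ → ℕ → ℕ
  | 0, n, _ => n
  | k + 1, n, N =>
    cond (skip (N % 256) n && (pr P72 (n + N % 256) && ent (n + N % 256) (N / 256)))
      (run k (n + N % 256 + 1) (N / 340282366920938463463374607431768211456)) 0

/-- the primes of a chunk -/
def dec : ℕ → ℕ → ℕ → List ℕ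
  | 0, _, _ => []
  | k + 1, n, N => (n + N % 256) :: dec k (n + N % 256 + 1) (N / 340282366920938463463374607431768211456)

lemma run_spec : ∀ (k n N m : ℕ), 2 ≤ n → run k n N = m → m ≠ 0 →
    n ≤ m ∧ (∀ q, q.Prime → n ≤ q → q < m → OK q) ∧
    (∀ q ∈ dec k n N, q.Prime ∧ n ≤ q ∧ q < m) ∧ (dec k n N).Nodup
  | 0, n, N, m, _, h, h0 => by
    have h1 : n = m := h
    subst h1
    exact ⟨le_rfl, fun q _ h2 h3 => by omega, by simp [dec], by simp [dec]⟩
  | k + 1, n, N, m, hn, h, h0 => by
    unfold run at h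
    cases hc : (skip (N % 256) n && (pr P72 (n + N % 256) && ent (n + N % 256) (N / 256))) with
    | false => rw [hc, cond_false] at h; exact absurd h.symm h0
    | true =>
      rw [hc, cond_true] at h
      rw [Bool.and_eq_true, Bool.and_eq_true] at hc
      obtain ⟨hs, hp, he⟩ := hc
      obtain ⟨ih0, ih1, ih2, ih3⟩ := run_spec k (n + N % 256 + 1) _ m (by omega) h h0
      have pq : (n + N % 256).Prime :=
        pr_spec P72 _ (by omega) (inv_P72 _) hp
      refine ⟨by omega, ?_, ?_, ?_⟩
      · intro q pq' h1 h2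
        rcases Nat.lt_trichotomy q (n + N % 256) with h3 | h3 | h3
        · exact absurd pq' (skip_spec _ n hs q h1 h3)
        · rw [h3]; exact ent_spec he
        · exact ih1 q pq' h3 h2
      · intro q hq
        rcases List.mem_cons.1 hq with h3 | h3
        · rw [h3]; exact ⟨pq, by omega, by omega⟩
        · obtain ⟨h4, h5, h6⟩ := ih2 q h3
          exact ⟨h4, by omega, h6⟩
      · show ((n + N % 256) :: dec k (n + N % 256 + 1) _).Nodup
        rw [List.nodup_cons]
        refine ⟨fun hq => ?_, ih3⟩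
        have := (ih2 _ hq).2.1
        omega

/-- certified interval: all primes in `[n, m)` are OK, `L` is a list of distinct primes in it -/
def Seg (n m : ℕ) (L : List ℕ) : Prop :=
  n ≤ m ∧ (∀ q, q.Prime → n ≤ q → q < m → OK q) ∧ (∀ q ∈ L, q.Prime ∧ n ≤ q ∧ q < m) ∧ L.Nodup

lemma Seg.append {n m k : ℕ} {L L' : List ℕ} (h : Seg n m L) (h' : Seg m k L') :
    Seg n k (L ++ L') := by
  obtain ⟨a1, a2, a3, a4⟩ := h
  obtain ⟨b1, b2, b3, b4⟩ := h'
  refine ⟨by omega, ?_, ?_, ?_⟩
  · intro q hq h1 h2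
    rcases Nat.lt_or_ge q m with h3 | h3
    · exact a2 q hq h1 h3
    · exact b2 q hq h3 h2
  · intro q hq
    rcases List.mem_append.1 hq with h1 | h1
    · obtain ⟨x, y, z⟩ := a3 q h1; exact ⟨x, y, by omega⟩
    · obtain ⟨x, y, z⟩ := b3 q h1; exact ⟨x, by omega, z⟩
  · rw [List.nodup_append]
    refine ⟨a4, b4, ?_⟩
    intro x hx y hy hxy
    have h1 := (a3 x hx).2.2
    have h2 := (b3 y hy).2.1
    omega

/-- run over chunks of 64 entries -/
def runs : List ℕ → ℕ → ℕ
  | [], n => n
  | N :: t, n =>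
    match run 64 n N with
    | 0 => 0
    | m + 1 => runs t (m + 1)

/-- the number after the last entry of a chunk -/
def nxt : ℕ → ℕ → ℕ → ℕ
  | 0, n, _ => n
  | k + 1, n, N => nxt k (n + N % 256 + 1) (N / 340282366920938463463374607431768211456)

lemma run_nxt : ∀ (k n N m : ℕ), run k n N = m → m ≠ 0 → nxt k n N = m
  | 0, n, N, m, h, _ => h
  | k + 1, n, N, m, h, h0 => by
    unfold run at h
    cases hc : (skip (N % 256) n && (pr P72 (n + N % 256) && ent (n + N % 256) (N / 256))) with
    | false => rw [hc, cond_false] at h; exact absurd h.symm h0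
    | true =>
      rw [hc, cond_true] at h
      exact run_nxt k _ _ m h h0

def decs : List ℕ → ℕ → List ℕ
  | [], _ => []
  | N :: t, n => dec 64 n N ++ decs t (nxt 64 n N)

lemma runs_spec : ∀ (l : List ℕ) (n m : ℕ), 2 ≤ n → runs l n = m → m ≠ 0 → Seg n m (decs l n)
  | [], n, m, _, h, h0 => by
    have h1 : n = m := h
    subst h1
    exact ⟨le_rfl, fun q _ h2 h3 => by omega, by simp [decs], by simp [decs]⟩
  | N :: t, n, m, hn, h, h0 => by
    unfold runs at h
    unfold decs
    cases hr : run 64 n N with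
    | zero => rw [hr] at h; exact absurd h.symm h0
    | succ k =>
      rw [hr] at h
      have h1 : Seg n (k + 1) (dec 64 n N) := run_spec 64 n N (k + 1) hn hr (by omega)
      rw [run_nxt 64 n N (k + 1) hr (by omega)]
      exact h1.append (runs_spec t (k + 1) m (by have := h1.1; omega) h h0)

lemma runs_cons {N n m k : ℕ} {t : List ℕ} (h : run 64 n N = m) (hm : m ≠ 0)
    (h2 : runs t m = k) : runs (N :: t) n = k := by
  unfold runs
  rw [h]
  cases m with
  | zero => exact absurd rfl hm
  | succ m => exact h2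

/-- product of the entries of a list -/
def prodL : List ℕ → ℕ
  | [] => 1
  | p :: t => p * prodL t

/-- product of `p - 1` over a list -/
def prodM : List ℕ → ℕ
  | [] => 1
  | p :: t => (p - 1) * prodM t

lemma prodL_append : ∀ l l' : List ℕ, prodL (l ++ l') = prodL l * prodL l'
  | [], l' => by simp [prodL]
  | p :: t, l' => by
    show p * prodL (t ++ l') = p * prodL t * prodL l'
    rw [prodL_append t l']; ring

lemma prodM_append : ∀ l l' : List ℕ, prodM (l ++ l') = prodM l * prodM l'
  | [], l' => by simp [prodM]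
  | p :: t, l' => by
    show (p - 1) * prodM (t ++ l') = (p - 1) * prodM t * prodM l'
    rw [prodM_append t l']; ring

/-- chunkwise products -/
def prodsL : List ℕ → ℕ → ℕ
  | [], _ => 1
  | N :: t, n => prodL (dec 64 n N) * prodsL t (nxt 64 n N)

def prodsM : List ℕ → ℕ → ℕ
  | [], _ => 1
  | N :: t, n => prodM (dec 64 n N) * prodsM t (nxt 64 n N)

lemma prodsL_eq : ∀ (l : List ℕ) (n : ℕ), prodL (decs l n) = prodsL l n
  | [], _ => rfl
  | N :: t, n => by
    show prodL (dec 64 n N ++ decs t (nxt 64 n N)) = prodL (dec 64 n N) * prodsL t (nxt 64 n N)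
    rw [prodL_append, prodsL_eq t]

lemma prodsM_eq : ∀ (l : List ℕ) (n : ℕ), prodM (decs l n) = prodsM l n
  | [], _ => rfl
  | N :: t, n => by
    show prodM (dec 64 n N ++ decs t (nxt 64 n N)) = prodM (dec 64 n N) * prodsM t (nxt 64 n N)
    rw [prodM_append, prodsM_eq t]

lemma prodL_pos : ∀ l : List ℕ, (∀ p ∈ l, p.Prime) → 0 < prodL l
  | [], _ => by simp [prodL]
  | p :: t, h => Nat.mul_pos (h p (by simp)).pos (prodL_pos t fun q hq => h q (by simp [hq]))

lemma prime_dvd_prodL : ∀ (l : List ℕ) (r : ℕ), (∀ p ∈ l, p.Prime) → r.Prime → r ∣ prodL l → r ∈ l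
  | [], r, _, hr, hd => by
    have : r ∣ 1 := hd
    have := hr.one_lt
    have := Nat.dvd_one.1 ‹r ∣ 1›
    omega
  | p :: t, r, h, hr, hd => by
    rcases (hr.dvd_mul).1 (show r ∣ p * prodL t from hd) with h1 | h1
    · rw [(Nat.prime_dvd_prime_iff_eq hr (h p (by simp))).1 h1]; simp
    · exact List.mem_cons_of_mem _ (prime_dvd_prodL t r (fun q hq => h q (by simp [hq])) hr h1)

lemma totient_prodL : ∀ (l : List ℕ), (∀ p ∈ l, p.Prime) → l.Nodup → φ (prodL l) = prodM l
  | [], _, _ => by simp [prodL, prodM]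
  | p :: t, h, hn => by
    rw [List.nodup_cons] at hn
    have ht : ∀ q ∈ t, q.Prime := fun q hq => h q (by simp [hq])
    have hp : p.Prime := h p (by simp)
    have h1 : ¬ p ∣ prodL t := fun hd => hn.1 (prime_dvd_prodL t p ht hp hd)
    show φ (p * prodL t) = (p - 1) * prodM t
    rw [Nat.totient_mul_of_prime_of_not_dvd hp h1, totient_prodL t ht hn.2]

end Pool.Agent.Phi44
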