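import Pool.Agent.Phi44.All

namespace Pool.Agent.Phi44

open Nat

lemma good_of3 {q M : ℕ} (hM : 0 < M)
    (hmin : ∀ r, r.Prime → r < q → r ≠ 2 → r ≠ 5 → ¬ r ∣ M) (hnot : ¬ (2 ∣ M ∧ 5 ∣ M))
    (h0 : ¬ 2 ∣ M → ¬ 5 ∣ M → OKst q []) (h2 : 2 ∣ M → ¬ 5 ∣ M → OKst q [2])
    (h5 : ¬ 2 ∣ M → 5 ∣ M → OKst q [5]) : Good (M * q) := by
  by_cases a : 2 ∣ M
  · have b : ¬ 5 ∣ M := fun b => hnot ⟨a, b⟩
    refine good_of_OKst (h2 a b) hM ?_
    intro r hr hrq
    by_cases e2 : r = 2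
    · subst e2; simp [a]
    · by_cases e5 : r = 5
      · subst e5; simp [b]
      · simp [e2, hmin r hr hrq e2 e5]
  · by_cases b : 5 ∣ M
    · refine good_of_OKst (h5 a b) hM ?_
      intro r hr hrq
      by_cases e2 : r = 2
      · subst e2; simp [a]
      · by_cases e5 : r = 5
        · subst e5; simp [b]
        · simp [e5, hmin r hr hrq e2 e5]
    · refine good_of_OKst (h0 a b) hM ?_
      intro r hr hrq
      by_cases e2 : r = 2
      · subst e2; simp [a]
      · by_cases e5 : r = 5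
        · subst e5; simp [b]
        · simp [hmin r hr hrq e2 e5]

lemma mem_small {q : ℕ} (hq : q.Prime) (hlt : q < 53) (h2 : q ≠ 2) (h5 : q ≠ 5) :
    q ∈ [3, 7, 11, 13, 17, 19, 23, 29, 31, 37, 41, 43, 47] := by
  have h := small_spec 367 small367 q hq (by omega)
  simp only [P72, List.mem_cons, List.not_mem_nil, or_false] at h ⊢
  omega

lemma good_small {q M : ℕ} (hq : q.Prime) (hlt : q < 53) (h2 : q ≠ 2) (h5 : q ≠ 5) (hM : 0 < M)
    (hmin : ∀ r, r.Prime → r < q → r ≠ 2 → r ≠ 5 → ¬ r ∣ M) (hnot : ¬ (2 ∣ M ∧ 5 ∣ M)) :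
    Good (M * q) := by
  have hm := mem_small hq hlt h2 h5
  simp only [List.mem_cons, List.not_mem_nil, or_false] at hm
  rcases hm with rfl | rfl | rfl | rfl | rfl | rfl | rfl | rfl | rfl | rfl | rfl | rfl | rfl
  · exact good3 (by omega) (Dvd.intro_left _ rfl)
  · exact good_of3 hM hmin hnot (fun _ _ => k7a) (fun _ _ => k7b) (fun _ _ => k7c)
  · by_cases h : 5 ∣ M
    · exact good11 hM h (fun a => hnot ⟨a, h⟩)
        (hmin 3 (by norm_num) (by norm_num) (by norm_num) (by norm_num))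
        (hmin 7 (by norm_num) (by norm_num) (by norm_num) (by norm_num))
    · exact good_of3 hM hmin hnot (fun _ _ => k11a) (fun _ _ => k11b) (fun _ b => absurd b h)
  · exact good_of3 hM hmin hnot (fun _ _ => k13a) (fun _ _ => k13b) (fun _ _ => k13c)
  · by_cases h : 5 ∣ M
    · exact good17 hM h (fun a => hnot ⟨a, h⟩)
        (hmin 3 (by norm_num) (by norm_num) (by norm_num) (by norm_num))
        (hmin 7 (by norm_num) (by norm_num) (by norm_num) (by norm_num))
        (hmin 13 (by norm_num) (by norm_num) (by norm_num) (by norm_num))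
    · exact good_of3 hM hmin hnot (fun _ _ => k17a) (fun _ _ => k17b) (fun _ b => absurd b h)
  · by_cases h : 2 ∣ M
    · exact good19 hM h
        (hmin 3 (by norm_num) (by norm_num) (by norm_num) (by norm_num))
        (hmin 17 (by norm_num) (by norm_num) (by norm_num) (by norm_num))
    · exact good_of3 hM hmin hnot (fun _ _ => k19a) (fun a _ => absurd a h) (fun _ _ => k19c)
  · exact good_of3 hM hmin hnot (fun _ _ => k23a) (fun _ _ => k23b) (fun _ _ => k23c)
  · exact good_of3 hM hmin hnot (fun _ _ => k29a) (fun _ _ => k29b) (fun _ _ => k29c)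
  · exact good_of3 hM hmin hnot (fun _ _ => k31a) (fun _ _ => k31b) (fun _ _ => k31c)
  · exact good_of3 hM hmin hnot (fun _ _ => k37a) (fun _ _ => k37b) (fun _ _ => k37c)
  · exact good_of3 hM hmin hnot (fun _ _ => k41a) (fun _ _ => k41b) (fun _ _ => k41c)
  · exact good_of3 hM hmin hnot (fun _ _ => k43a) (fun _ _ => k43b) (fun _ _ => k43c)
  · exact good_of3 hM hmin hnot (fun _ _ => k47a) (fun _ _ => k47b) (fun _ _ => k47c)

/-- every n with a prime factor below 131072 other than 2 and 5 -/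
theorem good_prime_factor {n : ℕ} (hn : 0 < n)
    (h : ∃ p, p.Prime ∧ p < 131072 ∧ p ≠ 2 ∧ p ≠ 5 ∧ p ∣ n) : Good n := by
  by_cases h10 : 10 ∣ n
  · exact good10 hn h10
  obtain ⟨p, pp, plt, p2, p5, pd⟩ := h
  have hex : ∃ q, q.Prime ∧ q ≠ 2 ∧ q ≠ 5 ∧ q ∣ n := ⟨p, pp, p2, p5, pd⟩
  classical
  obtain ⟨hq, q2, q5, hqd⟩ := Nat.find_spec hex
  have hmin0 : ∀ r, r < Nat.find hex → ¬ (r.Prime ∧ r ≠ 2 ∧ r ≠ 5 ∧ r ∣ n) :=
    fun r hr => Nat.find_min hex hr
  have hqlt : Nat.find hex < 131072 := lt_of_le_of_lt (Nat.find_min' hex ⟨pp, p2, p5, pd⟩) plt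
  generalize Nat.find hex = q at *
  obtain ⟨M, rfl⟩ := hqd
  have hM : 0 < M := Nat.pos_of_ne_zero (by rintro rfl; simp at hn)
  have hmin : ∀ r, r.Prime → r < q → r ≠ 2 → r ≠ 5 → ¬ r ∣ M := fun r hr hrq r2 r5 hd =>
    hmin0 r hrq ⟨hr, r2, r5, hd.mul_left _⟩
  have hnot : ¬ (2 ∣ M ∧ 5 ∣ M) := by
    rintro ⟨a, b⟩
    have h3 : 10 ∣ M := by omega
    exact h10 (h3.mul_left _)
  rw [mul_comm]
  by_cases h53 : q < 53
  · exact good_small hq h53 q2 q5 hM hmin hnot
  · obtain ⟨o0, o2, o5, -⟩ := seg_all.2.1 q hq (by omega) hqlt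
    exact good_of3 hM hmin hnot (fun _ _ => o0) (fun _ _ => o2) (fun _ _ => o5)

/-- the explicit family -/
theorem good_family {n : ℕ} (hn : 0 < n)
    (h : (∃ p, p.Prime ∧ p < 131072 ∧ p ≠ 2 ∧ p ≠ 5 ∧ p ∣ n) ∨ 10 ∣ n ∨ 16 ∣ n ∨ 25 ∣ n) :
    Good n := by
  by_cases h1 : ∃ p, p.Prime ∧ p < 131072 ∧ p ≠ 2 ∧ p ≠ 5 ∧ p ∣ n
  · exact good_prime_factor hn h1
  by_cases h10 : 10 ∣ n
  · exact good10 hn h10
  have hno : ∀ p, p.Prime → p < 131072 → p ≠ 2 → p ≠ 5 → ¬ p ∣ n :=
    fun p a b c d e => h1 ⟨p, a, b, c, d, e⟩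
  rcases h with h | h | h | h
  · exact absurd h h1
  · exact absurd h h10
  · exact good16 hn h (hno 3 (by norm_num) (by norm_num) (by norm_num) (by norm_num))
      (hno 7 (by norm_num) (by norm_num) (by norm_num) (by norm_num))
  · refine good25 hn h ?_ (hno 3 (by norm_num) (by norm_num) (by norm_num) (by norm_num))
      (hno 19 (by norm_num) (by norm_num) (by norm_num) (by norm_num))
    intro h2
    exact h10 (by omega)

/-- the product of all primes below 131072 -/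
def R : ℕ := prodL (P15 ++ LL)

lemma list_prime : ∀ p ∈ P15 ++ LL, p.Prime ∧ p < 131072 := by
  intro p hp
  rcases List.mem_append.1 hp with h | h
  · have : p < 131072 := by
      simp only [P15, List.mem_cons, List.not_mem_nil, or_false] at h
      omega
    refine ⟨?_, this⟩
    simp only [P15, List.mem_cons, List.not_mem_nil, or_false] at h
    rcases h with rfl | rfl | rfl | rfl | rfl | rfl | rfl | rfl | rfl | rfl | rfl | rfl | rfl | rfl |
      rfl <;> norm_num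
  · have := seg_all.2.2.1 p h
    exact ⟨this.1, this.2.2⟩

lemma list_nodup : (P15 ++ LL).Nodup := by
  rw [List.nodup_append]
  refine ⟨by decide, seg_all.2.2.2, ?_⟩
  intro a ha b hb hab
  have h1 := (seg_all.2.2.1 b hb).2.1
  simp only [P15, List.mem_cons, List.not_mem_nil, or_false] at ha
  omega

lemma R_pos : 0 < R := prodL_pos (P15 ++ LL) fun p hp => (list_prime p hp).1

lemma totient_R : φ R = prodM (P15 ++ LL) :=
  totient_prodL _ (fun p hp => (list_prime p hp).1) list_nodup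

lemma R_eq : R = prodL (P15 ++ LL) := rfl

lemma numeric_R : 83 * φ R ≤ 4 * R := by
  rw [totient_R, R_eq]; exact numeric

/-- lifting from the least prime factor -/
lemma lift {c m : ℕ} (hc : c ∈ ({1, 2, 4, 5, 8} : Finset ℕ)) (hm : 1 < m)
    (hp : ∀ p, p.Prime → p ∣ m → 131072 < p) {k l : ℕ} (hk : 0 < k) (hkl : k < l)
    (hs : k + l = m.minFac) (hsq : IsSquare (φ (c * k) * φ (c * l))) : Good (c * m) := by
  have hc0 : 0 < c ∧ c ≤ 8 := by
    simp only [Finset.mem_insert, Finset.mem_singleton] at hc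
    omega
  have hq : m.minFac.Prime := Nat.minFac_prime (by omega)
  have hbig : 131072 < m.minFac := hp _ hq (Nat.minFac_dvd m)
  obtain ⟨M, hM⟩ := Nat.minFac_dvd m
  have hM0 : 0 < M := by
    rcases Nat.eq_zero_or_pos M with h | h
    · rw [h, mul_zero] at hM; omega
    · exact h
  have hcop : ∀ x, 0 < x → x < m.minFac → Nat.Coprime (c * x) M := by
    intro x hx hxq
    rw [Nat.coprime_iff_gcd_eq_one]
    by_contra hne
    obtain ⟨r, hr, hrd⟩ := Nat.exists_prime_and_dvd hne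
    have hr1 : r ∣ c * x := hrd.trans (Nat.gcd_dvd_left _ _)
    have hr2 : r ∣ m := by
      rw [hM]; exact (hrd.trans (Nat.gcd_dvd_right _ _)).mul_left _
    have hrq : m.minFac ≤ r := Nat.minFac_le_of_dvd hr.two_le hr2
    rcases (hr.dvd_mul).1 hr1 with h | h
    · have := Nat.le_of_dvd hc0.1 h; omega
    · have := Nat.le_of_dvd hx h; omega
  have e1 : φ (c * k * M) = φ (c * k) * φ M := Nat.totient_mul (hcop k hk (by omega))
  have e2 : φ (c * l * M) = φ (c * l) * φ M := Nat.totient_mul (hcop l (by omega) (by omega))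
  refine good_of_pair (k := c * k * M) (l := c * l * M) (by have := hc0.1; positivity) ?_ ?_ ?_ ?_
  · exact Nat.mul_pos (Nat.mul_pos hc0.1 (by omega)) hM0
  · intro h
    have h1 := Nat.eq_of_mul_eq_mul_right hM0 h
    have h2 := Nat.eq_of_mul_eq_mul_left hc0.1 h1
    omega
  · calc c * k * M + c * l * M = c * ((k + l) * M) := by ring
      _ = c * m := by rw [hs, ← hM]
  · rw [e1, e2]
    obtain ⟨t, ht⟩ := hsq
    refine ⟨φ M * t, ?_⟩
    calc φ (c * k) * φ M * (φ (c * l) * φ M) = φ M * φ M * (φ (c * k) * φ (c * l)) := by ring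
      _ = φ M * t * (φ M * t) := by rw [ht]; ring

/-- bad numbers are c * m with all prime factors of m large -/
lemma bad_form0 {n : ℕ} (hn : 0 < n) (hb : ¬ Good n) :
    ∃ c ∈ ({1, 2, 4, 5, 8} : Finset ℕ), ∃ m, n = c * m ∧ ∀ p, p.Prime → p ∣ m → 131072 < p := by
  have h1 : ∀ p, p.Prime → p < 131072 → p ≠ 2 → p ≠ 5 → ¬ p ∣ n :=
    fun p a b c d e => hb (good_family hn (Or.inl ⟨p, a, b, c, d, e⟩))
  have h10 : ¬ 10 ∣ n := fun h => hb (good_family hn (Or.inr (Or.inl h)))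
  have h16 : ¬ 16 ∣ n := fun h => hb (good_family hn (Or.inr (Or.inr (Or.inl h))))
  have h25 : ¬ 25 ∣ n := fun h => hb (good_family hn (Or.inr (Or.inr (Or.inr h))))
  have key : ∀ m, m ∣ n → ¬ 2 ∣ m → ¬ 5 ∣ m → ∀ p, p.Prime → p ∣ m → 131072 < p := by
    intro m hmn m2 m5 p pp hpm
    by_contra hle
    have hne : p ≠ 131072 := by
      rintro rfl
      exact m2 ((show 2 ∣ 131072 by norm_num).trans hpm)
    refine h1 p pp (by omega) ?_ ?_ (hpm.trans hmn)
    · rintro rfl; exact m2 hpm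
    · rintro rfl; exact m5 hpm
  by_cases h5 : 5 ∣ n
  · obtain ⟨m, rfl⟩ := h5
    exact ⟨5, by simp, m, rfl, key m (Dvd.intro_left _ rfl) (by omega) (by omega)⟩
  · by_cases h2 : 2 ∣ n
    · by_cases h4 : 4 ∣ n
      · by_cases h8 : 8 ∣ n
        · obtain ⟨m, rfl⟩ := h8
          exact ⟨8, by simp, m, rfl, key m (Dvd.intro_left _ rfl) (by omega) (by omega)⟩
        · obtain ⟨m, rfl⟩ := h4
          exact ⟨4, by simp, m, rfl, key m (Dvd.intro_left _ rfl) (by omega) (by omega)⟩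
      · obtain ⟨m, rfl⟩ := h2
        exact ⟨2, by simp, m, rfl, key m (Dvd.intro_left _ rfl) (by omega) (by omega)⟩
    · exact ⟨1, by simp, n, by simp, key n dvd_rfl h2 h5⟩

/-- bad numbers are c * m with m coprime to R -/
lemma bad_form {n : ℕ} (hn : 0 < n) (hb : ¬ Good n) :
    ∃ c ∈ ({1, 2, 4, 8, 5} : Finset ℕ), ∃ m, n = c * m ∧ Nat.Coprime R m := by
  obtain ⟨c, hc, m, hm, hp⟩ := bad_form0 hn hb
  refine ⟨c, ?_, m, hm, ?_⟩
  · simp only [Finset.mem_insert, Finset.mem_singleton] at hc ⊢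
    tauto
  · apply Nat.Coprime.symm
    rw [Nat.coprime_iff_gcd_eq_one]
    by_contra hne
    obtain ⟨r, hr, hrd⟩ := Nat.exists_prime_and_dvd hne
    have hr1 : r ∣ m := hrd.trans (Nat.gcd_dvd_left _ _)
    have hr2 : r ∣ R := hrd.trans (Nat.gcd_dvd_right _ _)
    have hmem := prime_dvd_prodL _ r (fun p hp => (list_prime p hp).1) hr hr2
    have hlt := (list_prime r hmem).2
    have := hp r hr hr1
    omega

/-- structure of a bad number above 8 -/
theorem structure_bad {n : ℕ} (hn : 8 < n) (hb : ¬ Good n) :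
    ∃ c ∈ ({1, 2, 4, 5, 8} : Finset ℕ), ∃ m, n = c * m ∧ 1 < m ∧
      (∀ p, p.Prime → p ∣ m → 131072 < p) ∧
      ∀ k l, 0 < k → k < l → k + l = m.minFac → ¬ IsSquare (φ (c * k) * φ (c * l)) := by
  obtain ⟨c, hc, m, hm, hp⟩ := bad_form0 (by omega) hb
  have hc8 : c ≤ 8 := by
    simp only [Finset.mem_insert, Finset.mem_singleton] at hc
    omega
  have hm1 : 1 < m := by
    by_contra h
    have : c * m ≤ 8 * 1 := Nat.mul_le_mul hc8 (by omega)
    omega
  refine ⟨c, hc, m, hm, hm1, hp, ?_⟩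
  intro k l hk hkl hs hsq
  apply hb
  rw [hm]
  exact lift hc hm1 hp hk hkl hs hsq

lemma count_coprime (y : ℕ) :
    ((Finset.Ico 0 (0 + (y + 1))).filter (Nat.Coprime R)).card ≤ φ R * ((y + 1) / R + 1) :=
  Nat.Ico_filter_coprime_le 0 (y + 1) R_pos.ne'

/-- the bad numbers up to x -/
lemma card_bad (x : ℕ) (S : Finset ℕ) (hS : ∀ n ∈ S, 0 < n ∧ n ≤ x ∧ ¬ Good n) :
    10 * S.card ≤ x + 60 * φ R := by
  classical
  have hR := R_pos
  let T : ℕ → Finset ℕ := fun c =>
    (((Finset.Ico 0 (0 + (x / c + 1))).filter (Nat.Coprime R))).image (fun m => c * m)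
  have hsub : S ⊆ ({1, 2, 4, 8, 5} : Finset ℕ).biUnion T := by
    intro n hn
    obtain ⟨h1, h2, h3⟩ := hS n hn
    obtain ⟨c, hc, m, rfl, hm⟩ := bad_form h1 h3
    rw [Finset.mem_biUnion]
    refine ⟨c, hc, ?_⟩
    refine Finset.mem_image.2 ⟨m, ?_, rfl⟩
    have hc0 : 0 < c := Nat.pos_of_mul_pos_right h1 |> fun _ => by
      rcases Nat.eq_zero_or_pos c with h | h
      · subst h; simp at h1
      · exact h
    rw [Finset.mem_filter, Finset.mem_Ico]
    refine ⟨⟨Nat.zero_le _, ?_⟩, hm⟩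
    have : m ≤ x / c := (Nat.le_div_iff_mul_le hc0).2 (by rw [mul_comm]; exact h2)
    omega
  have hT : ∀ c, (T c).card ≤ φ R * ((x / c + 1) / R + 1) := fun c =>
    Finset.card_image_le.trans (count_coprime (x / c))
  have h1 : S.card ≤ ∑ c ∈ ({1, 2, 4, 8, 5} : Finset ℕ), φ R * ((x / c + 1) / R + 1) :=
    (Finset.card_le_card hsub).trans (Finset.card_biUnion_le.trans (Finset.sum_le_sum fun c _ => hT c))
  have h2 : ∑ c ∈ ({1, 2, 4, 8, 5} : Finset ℕ), φ R * ((x / c + 1) / R + 1) =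
      φ R * (((x / 1 + 1) / R + 1) + ((x / 2 + 1) / R + 1) + ((x / 4 + 1) / R + 1) +
        ((x / 8 + 1) / R + 1) + ((x / 5 + 1) / R + 1)) := by
    simp; ring
  rw [h2] at h1
  have hd : ∀ y, R * ((y + 1) / R) ≤ y + 1 := fun y => Nat.mul_div_le _ _
  have e1 := hd (x / 1)
  have e2 := hd (x / 2)
  have e4 := hd (x / 4)
  have e8 := hd (x / 8)
  have e5 := hd (x / 5)
  generalize (x / 1 + 1) / R = a1 at *
  generalize (x / 2 + 1) / R = a2 at *
  generalize (x / 4 + 1) / R = a4 at *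
  generalize (x / 8 + 1) / R = a8 at *
  generalize (x / 5 + 1) / R = a5 at *
  have f : 40 * (R * (a1 + 1 + (a2 + 1) + (a4 + 1) + (a8 + 1) + (a5 + 1))) ≤
      83 * x + 200 + 200 * R := by
    have : R * (a1 + 1 + (a2 + 1) + (a4 + 1) + (a8 + 1) + (a5 + 1)) =
      R * a1 + R * a2 + R * a4 + R * a8 + R * a5 + 5 * R := by ring
    rw [this]
    generalize R * a1 = b1 at *
    generalize R * a2 = b2 at *
    generalize R * a4 = b4 at *
    generalize R * a8 = b8 at *
    generalize R * a5 = b5 at *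
    omega
  have hn := numeric_R
  have g : 40 * (R * S.card) ≤ φ R * (83 * x + 200 + 200 * R) := by
    calc 40 * (R * S.card)
        ≤ 40 * (R * (φ R * (a1 + 1 + (a2 + 1) + (a4 + 1) + (a8 + 1) + (a5 + 1)))) :=
          Nat.mul_le_mul_left _ (Nat.mul_le_mul_left _ h1)
      _ = φ R * (40 * (R * (a1 + 1 + (a2 + 1) + (a4 + 1) + (a8 + 1) + (a5 + 1)))) := by ring
      _ ≤ φ R * (83 * x + 200 + 200 * R) := Nat.mul_le_mul_left _ f
  have g2 : R * (40 * S.card) ≤ R * (4 * x + 200 * φ R + 40 * φ R) := by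
    have hR1 : 5 ≤ R := by
      have : 0 < φ R := Nat.totient_pos.2 hR
      omega
    calc R * (40 * S.card) = 40 * (R * S.card) := by ring
      _ ≤ φ R * (83 * x + 200 + 200 * R) := g
      _ = (83 * φ R) * x + 200 * φ R + 200 * φ R * R := by ring
      _ ≤ (4 * R) * x + (40 * R) * φ R + 200 * φ R * R := by
          have t1 : (83 * φ R) * x ≤ (4 * R) * x := Nat.mul_le_mul_right _ hn
          have t2 : 200 * φ R ≤ (40 * R) * φ R := Nat.mul_le_mul_right _ (by omega)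
          omega
      _ = R * (4 * x + 200 * φ R + 40 * φ R) := by ring
  have g3 := Nat.le_of_mul_le_mul_left g2 hR
  omega

end Pool.Agent.Phi44
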