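import Pool.Agent.Phi44.Core

namespace Pool.Agent.Phi44

open Nat

lemma tot_list (M : ℕ) (hM : 0 < M) (l : List ℕ) (D : List ℕ) (hp : ∀ p ∈ l, p.Prime)
    (hD : ∀ p ∈ l, (p ∈ D ↔ p ∣ M)) : φ (M * l.prod) = φ M * go D l := go_spec l D M hM hp hD

/-- n divisible by 10 -/
lemma good10 {n : ℕ} (hn : 0 < n) (h : 10 ∣ n) : Good n := by
  obtain ⟨M, rfl⟩ := h
  have hM : 0 < M := Nat.pos_of_mul_pos_left hn |> fun _ => by omega
  refine good_of_pair (k := 2 * M) (l := 8 * M) (by omega) (by omega) (by omega) (by ring) ?_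
  have h1 : φ (8 * M) = 4 * φ (2 * M) := by
    have e1 : φ (2 * (2 * M)) = 2 * φ (2 * M) :=
      Nat.totient_mul_of_prime_of_dvd Nat.prime_two (Dvd.intro _ rfl)
    have e2 : φ (2 * (2 * (2 * M))) = 2 * φ (2 * (2 * M)) :=
      Nat.totient_mul_of_prime_of_dvd Nat.prime_two (Dvd.intro _ rfl)
    rw [show 8 * M = 2 * (2 * (2 * M)) by ring, e2, e1]; ring
  rw [h1]
  exact ⟨2 * φ (2 * M), by ring⟩

/-- n divisible by 3 -/
lemma good3 {n : ℕ} (hn : 0 < n) (h : 3 ∣ n) : Good n := by
  by_cases h10 : 10 ∣ n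
  · exact good10 hn h10
  obtain ⟨M, rfl⟩ := h
  have hM : 0 < M := by omega
  by_cases h2 : 2 ∣ M
  · obtain ⟨K, rfl⟩ := h2
    have h5 : ¬ 5 ∣ K := by
      rintro ⟨t, rfl⟩; exact h10 ⟨3 * t, by ring⟩
    refine good_of_pair (k := K) (l := 5 * K) (by omega) (by omega) (by omega) (by ring) ?_
    rw [Nat.totient_mul_of_prime_of_not_dvd Nat.prime_five h5]
    exact ⟨2 * φ K, by norm_num; ring⟩
  · refine good_of_pair (k := M) (l := 2 * M) (by omega) (by omega) (by omega) (by ring) ?_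
    rw [Nat.totient_mul_of_prime_of_not_dvd Nat.prime_two h2]
    exact ⟨φ M, by norm_num⟩

/-- n divisible by 16, not by 3 or 7 -/
lemma good16 {n : ℕ} (hn : 0 < n) (h : 16 ∣ n) (h3 : ¬ 3 ∣ n) (h7 : ¬ 7 ∣ n) : Good n := by
  obtain ⟨M, rfl⟩ := h
  have hM : 0 < M := by omega
  have h3' : ¬ 3 ∣ M := fun h => h3 (h.mul_left _)
  have h7' : ¬ 7 ∣ M := fun h => h7 (h.mul_left _)
  have e1 := tot_list M hM [7] [] (by norm_num) (by simpa using h7')
  have e2 := tot_list M hM [3, 3] [] (by norm_num) (by simpa using h3')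
  refine good_of_pair (k := 7 * M) (l := 9 * M) (by omega) (by omega) (by omega) (by ring) ?_
  rw [show 7 * M = M * [7].prod by simp; ring, show 9 * M = M * [3, 3].prod by simp; ring, e1, e2]
  refine ⟨6 * φ M, ?_⟩
  rw [show go [] [7] = 6 by decide, show go [] [3, 3] = 6 by decide]
  ring

/-- n divisible by 25, not by 2, 3 or 19 -/
lemma good25 {n : ℕ} (hn : 0 < n) (h : 25 ∣ n) (h2 : ¬ 2 ∣ n) (h3 : ¬ 3 ∣ n) (h19 : ¬ 19 ∣ n) :
    Good n := by
  obtain ⟨M, rfl⟩ := h
  have hM : 0 < M := by omega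
  have h2' : ¬ 2 ∣ M := fun h => h2 (h.mul_left _)
  have h3' : ¬ 3 ∣ M := fun h => h3 (h.mul_left _)
  have h19' : ¬ 19 ∣ M := fun h => h19 (h.mul_left _)
  have e1 := tot_list M hM [2, 3] [] (by norm_num) (by simp [h2', h3'])
  have e2 := tot_list M hM [19] [] (by norm_num) (by simpa using h19')
  refine good_of_pair (k := 6 * M) (l := 19 * M) (by omega) (by omega) (by omega) (by ring) ?_
  rw [show 6 * M = M * [2, 3].prod by simp; ring, show 19 * M = M * [19].prod by simp; ring, e1, e2]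
  refine ⟨6 * φ M, ?_⟩
  rw [show go [] [2, 3] = 2 by decide, show go [] [19] = 18 by decide]
  ring

/-- 11 M with 5 | M and 2, 3, 7 not dividing M -/
lemma good11 {M : ℕ} (hM : 0 < M) (h5 : 5 ∣ M) (h2 : ¬ 2 ∣ M) (h3 : ¬ 3 ∣ M) (h7 : ¬ 7 ∣ M) :
    Good (M * 11) := by
  by_cases h13 : 13 ∣ M
  · obtain ⟨K, rfl⟩ := h13
    have hK : 0 < K := by omega
    have n2 : ¬ 2 ∣ 11 * K := fun h =>
      h2 ((Nat.Coprime.dvd_of_dvd_mul_left (by norm_num : Nat.Coprime 2 11) h).mul_left _)
    have n3 : ¬ 3 ∣ 11 * K := fun h =>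
      h3 ((Nat.Coprime.dvd_of_dvd_mul_left (by norm_num : Nat.Coprime 3 11) h).mul_left _)
    clear h2 h3 h7 h5
    have e1 := tot_list (11 * K) (by omega) [2, 2, 3] [] (by norm_num) (by simp [n2, n3])
    clear n2 n3
    refine good_of_pair (k := 11 * K) (l := (11 * K) * 12) (by omega) (by omega) (by omega)
      (by ring) ?_
    rw [show (11 * K) * 12 = (11 * K) * [2, 2, 3].prod by simp, e1,
      show go [] [2, 2, 3] = 4 by decide]
    exact ⟨2 * φ (11 * K), by ring⟩
  · obtain ⟨K, rfl⟩ := h5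
    have hK : 0 < K := by omega
    have h2' : ¬ 2 ∣ K := fun h => h2 (h.mul_left _)
    have h3' : ¬ 3 ∣ K := fun h => h3 (h.mul_left _)
    have h7' : ¬ 7 ∣ K := fun h => h7 (h.mul_left _)
    have h13' : ¬ 13 ∣ K := fun h => h13 (h.mul_left _)
    refine good_of_pair (k := K * 13) (l := K * 42) (by omega) (by omega) (by omega) (by ring) ?_
    have e1 := tot_list K hK [13] [] (by norm_num) (by simpa using h13')
    have e2 := tot_list K hK [2, 3, 7] [] (by norm_num) (by simp [h2', h3', h7'])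
    rw [show K * 13 = K * [13].prod by simp, show K * 42 = K * [2, 3, 7].prod by simp, e1, e2,
      show go [] [13] = 12 by decide, show go [] [2, 3, 7] = 12 by decide]
    exact ⟨12 * φ K, by ring⟩

/-- 17 M with 5 | M and 2, 3, 7, 13 not dividing M -/
lemma good17 {M : ℕ} (hM : 0 < M) (h5 : 5 ∣ M) (h2 : ¬ 2 ∣ M) (h3 : ¬ 3 ∣ M) (h7 : ¬ 7 ∣ M)
    (h13 : ¬ 13 ∣ M) : Good (M * 17) := by
  obtain ⟨K, rfl⟩ := h5
  have hK : 0 < K := by omega
  have h2' : ¬ 2 ∣ K := fun h => h2 (h.mul_left _)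
  have h3' : ¬ 3 ∣ K := fun h => h3 (h.mul_left _)
  have h7' : ¬ 7 ∣ K := fun h => h7 (h.mul_left _)
  have h13' : ¬ 13 ∣ K := fun h => h13 (h.mul_left _)
  refine good_of_pair (k := K * 7) (l := K * 78) (by omega) (by omega) (by omega) (by ring) ?_
  have e1 := tot_list K hK [7] [] (by norm_num) (by simpa using h7')
  have e2 := tot_list K hK [2, 3, 13] [] (by norm_num) (by simp [h2', h3', h13'])
  rw [show K * 7 = K * [7].prod by simp, show K * 78 = K * [2, 3, 13].prod by simp, e1, e2,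
    show go [] [7] = 6 by decide, show go [] [2, 3, 13] = 24 by decide]
  exact ⟨12 * φ K, by ring⟩

/-- 19 M with 2 | M and 3, 17 not dividing M -/
lemma good19 {M : ℕ} (hM : 0 < M) (h2 : 2 ∣ M) (h3 : ¬ 3 ∣ M) (h17 : ¬ 17 ∣ M) :
    Good (M * 19) := by
  by_cases h37 : 37 ∣ M
  · obtain ⟨K, rfl⟩ := h37
    have hK : 0 < K := by omega
    have h3' : ¬ 3 ∣ 19 * K := fun h =>
      h3 ((Nat.Coprime.dvd_of_dvd_mul_left (by norm_num : Nat.Coprime 3 19) h).mul_left _)
    have h17' : ¬ 17 ∣ 19 * K := fun h =>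
      h17 ((Nat.Coprime.dvd_of_dvd_mul_left (by norm_num : Nat.Coprime 17 19) h).mul_left _)
    have h2' : 2 ∣ 19 * K :=
      (Nat.Coprime.dvd_of_dvd_mul_left (by norm_num : Nat.Coprime 2 37) h2).mul_left _
    clear h2 h3 h17
    have e1 := tot_list (19 * K) (by omega) [3] [] (by norm_num) (by simpa using h3')
    have e2 := tot_list (19 * K) (by omega) [2, 17] [2] (by norm_num) (by simp [h2', h17'])
    clear h2' h3' h17'
    refine good_of_pair (k := (19 * K) * 3) (l := (19 * K) * 34) (by omega) (by omega) (by omega)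
      (by ring) ?_
    rw [show (19 * K) * 3 = (19 * K) * [3].prod by simp,
      show (19 * K) * 34 = (19 * K) * [2, 17].prod by simp, e1, e2,
      show go [] [3] = 2 by decide, show go [2] [2, 17] = 32 by decide]
    exact ⟨8 * φ (19 * K), by ring⟩
  · obtain ⟨K, rfl⟩ := h2
    have hK : 0 < K := by omega
    have h37' : ¬ 37 ∣ K := fun h => h37 (h.mul_left _)
    refine good_of_pair (k := K) (l := K * 37) (by omega) (by omega) (by omega) (by ring) ?_
    have e1 := tot_list K hK [37] [] (by norm_num) (by simpa using h37')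
    rw [show K * 37 = K * [37].prod by simp, e1, show go [] [37] = 36 by decide]
    exact ⟨6 * φ K, by ring⟩

lemma k7a : OKst 7 [] := chk_spec (a := 2) (s := 2) (by decide +kernel)
lemma k7b : OKst 7 [2] := chk_spec (a := 1) (s := 2) (by decide +kernel)
lemma k7c : OKst 7 [5] := chk_spec (a := 3) (s := 2) (by decide +kernel)
lemma k11a : OKst 11 [] := chk_spec (a := 1) (s := 2) (by decide +kernel)
lemma k11b : OKst 11 [2] := chk_spec (a := 3) (s := 4) (by decide +kernel)
lemma k13a : OKst 13 [] := chk_spec (a := 1) (s := 2) (by decide +kernel)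
lemma k13b : OKst 13 [2] := chk_spec (a := 3) (s := 4) (by decide +kernel)
lemma k13c : OKst 13 [5] := chk_spec (a := 1) (s := 2) (by decide +kernel)
lemma k17a : OKst 17 [] := chk_spec (a := 5) (s := 4) (by decide +kernel)
lemma k17b : OKst 17 [2] := chk_spec (a := 2) (s := 4) (by decide +kernel)
lemma k19a : OKst 19 [] := chk_spec (a := 2) (s := 4) (by decide +kernel)
lemma k19c : OKst 19 [5] := chk_spec (a := 2) (s := 4) (by decide +kernel)
lemma k23a : OKst 23 [] := chk_spec (a := 3) (s := 4) (by decide +kernel)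
lemma k23b : OKst 23 [2] := chk_spec (a := 6) (s := 8) (by decide +kernel)
lemma k23c : OKst 23 [5] := chk_spec (a := 4) (s := 6) (by decide +kernel)
lemma k29a : OKst 29 [] := chk_spec (a := 12) (s := 8) (by decide +kernel)
lemma k29b : OKst 29 [2] := chk_spec (a := 2) (s := 6) (by decide +kernel)
lemma k29c : OKst 29 [5] := chk_spec (a := 12) (s := 8) (by decide +kernel)
lemma k31a : OKst 31 [] := chk_spec (a := 4) (s := 6) (by decide +kernel)
lemma k31b : OKst 31 [2] := chk_spec (a := 1) (s := 4) (by decide +kernel)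
lemma k31c : OKst 31 [5] := chk_spec (a := 4) (s := 6) (by decide +kernel)
lemma k37a : OKst 37 [] := chk_spec (a := 5) (s := 8) (by decide +kernel)
lemma k37b : OKst 37 [2] := chk_spec (a := 3) (s := 8) (by decide +kernel)
lemma k37c : OKst 37 [5] := chk_spec (a := 12) (s := 10) (by decide +kernel)
lemma k41a : OKst 41 [] := chk_spec (a := 3) (s := 6) (by decide +kernel)
lemma k41b : OKst 41 [2] := chk_spec (a := 4) (s := 12) (by decide +kernel)
lemma k41c : OKst 41 [5] := chk_spec (a := 3) (s := 6) (by decide +kernel)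
lemma k43a : OKst 43 [] := chk_spec (a := 19) (s := 12) (by decide +kernel)
lemma k43b : OKst 43 [2] := chk_spec (a := 3) (s := 8) (by decide +kernel)
lemma k43c : OKst 43 [5] := chk_spec (a := 10) (s := 10) (by decide +kernel)
lemma k47a : OKst 47 [] := chk_spec (a := 10) (s := 12) (by decide +kernel)
lemma k47b : OKst 47 [2] := chk_spec (a := 17) (s := 16) (by decide +kernel)
lemma k47c : OKst 47 [5] := chk_spec (a := 21) (s := 12) (by decide +kernel)

end Pool.Agent.Phi44
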